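import Pool.Agent.H.MP_f22ace_co.A

set_option autoImplicit false

namespace Pool.Agent.Results.MP_f22ace_co.Q1Phi

open Finset Filter Pool.Agent.H.MP_f22ace_co

def par (n k : ℕ) : Finset (Pt (n + 2) k) :=
  univ.filter fun x => (x 1 : ℕ) = (x 0 : ℕ) ^ 2 ∧ ∀ i : Fin n, (x i.succ.succ : ℕ) ≤ 1

theorem par_conv (n k : ℕ) : IsConv (par n k) := by
  refine conv_of _ fun x hx => ⟨Fin.cons (2 * emb x 0)
    (Fin.cons (-1) fun i : Fin n => 2 * emb x i.succ.succ - 1), fun y hy hne => ?_⟩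
  obtain ⟨hx0, hx1⟩ := (mem_filter.1 hx).2
  obtain ⟨hy0, hy1⟩ := (mem_filter.1 hy).2
  have key : ∀ i : Fin n, ((x i.succ.succ : ℕ) = 0 ∨ (x i.succ.succ : ℕ) = 1) ∧
      ((y i.succ.succ : ℕ) = 0 ∨ (y i.succ.succ : ℕ) = 1) := fun i => by
    have := hx1 i; have := hy1 i; omega
  have ex : emb x 1 = emb x 0 ^ 2 := by simp [emb, hx0]
  have ey : emb y 1 = emb y 0 ^ 2 := by simp [emb, hy0]
  simp only [Fin.sum_univ_succ, Fin.cons_zero, Fin.cons_succ, Fin.succ_zero_eq_one, ex, ey]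
  have hle : ∀ i ∈ (univ : Finset (Fin n)), (2 * emb x i.succ.succ - 1) * emb y i.succ.succ ≤
      (2 * emb x i.succ.succ - 1) * emb x i.succ.succ := fun i _ => by
    obtain ⟨h1 | h1, h2 | h2⟩ := key i <;> simp [emb, h1, h2] <;> norm_num
  by_cases h0 : y 0 = x 0
  · have e0 : emb y 0 = emb x 0 := by simp [emb, h0]
    obtain ⟨j, hj⟩ : ∃ j : Fin n, y j.succ.succ ≠ x j.succ.succ := by
      by_contra hc
      push Not at hc
      refine hne (funext fun i => ?_)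
      refine Fin.cases h0 (fun i => Fin.cases (Fin.ext ?_) hc i) i
      simp [hx0, hy0, h0]
    have := sum_lt_sum hle ⟨j, mem_univ _, by
      have hj' : (y j.succ.succ : ℕ) ≠ x j.succ.succ := fun h => hj (Fin.ext h)
      obtain ⟨h1 | h1, h2 | h2⟩ := key j <;> simp_all [emb] <;> norm_num⟩
    rw [e0]; linarith
  · have := sum_le_sum hle
    have h1 : emb y 0 - emb x 0 ≠ 0 := by
      rw [sub_ne_zero]
      intro h
      simp only [emb, Nat.cast_inj] at h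
      exact h0 (Fin.ext h)
    nlinarith [sq_pos_of_ne_zero h1]

def pt (n k t : ℕ) (ht : t ^ 2 ≤ k) (s : Finset (Fin n)) : Pt (n + 2) k :=
  Fin.cons ⟨t, by nlinarith [Nat.le_self_pow two_ne_zero t]⟩
    (Fin.cons ⟨t ^ 2, by omega⟩ fun i : Fin n => if i ∈ s then (1 : Fin (k + 1)) else 0)

theorem pt_mem (n k t : ℕ) (ht : t ^ 2 ≤ k) (s : Finset (Fin n)) : pt n k t ht s ∈ par n k := by
  refine mem_filter.2 ⟨mem_univ _, rfl, fun i => ?_⟩
  simp only [pt, Fin.cons_succ]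
  split_ifs
  · rw [Fin.val_one']; exact Nat.mod_le _ _
  · simp

theorem par_card (n k : ℕ) : k.sqrt + 1 ≤ (par n k).card := by
  have h := card_le_card_of_injOn (s := (univ : Finset (Fin (k.sqrt + 1)))) (t := par n k)
    (fun t => pt n k t (Nat.le_sqrt'.1 (Nat.le_of_lt_succ t.2)) ∅)
    (fun t _ => mem_coe.2 (pt_mem _ _ _ _ _))
    (fun x _ y _ h => by
      have := congrArg Fin.val (congrFun h 0)
      exact Fin.ext this)
  simpa using h

theorem mem_of_eq {d : ℕ} {W : Submodule ℝ (Fin d → ℝ)} {a b : Fin d → ℝ} (h : a ∈ W)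
    (e : a = b) : b ∈ W := e ▸ h

theorem par_sp (n k : ℕ) (hk : 9 ≤ k) : Sp ((par n k).erase 0) = ⊤ := by
  have mem : ∀ (t : ℕ) (ht : t ^ 2 ≤ k) (s : Finset (Fin n)), 0 < t →
      pt n k t ht s ∈ (par n k).erase 0 := by
    intro t ht s h0
    refine mem_erase.2 ⟨fun h => ?_, pt_mem _ _ _ _ _⟩
    have : t = 0 := congrArg Fin.val (congrFun h 0)
    omega
  have hone : ((1 : Fin (k + 1)) : ℕ) = 1 := by
    rw [Fin.val_one']; exact Nat.mod_eq_of_lt (by omega)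
  refine sp_top _ ⟨_, mem 1 (by omega) ∅ one_pos⟩ fun i => ?_
  have u := diff_mem _ (mem 2 (by omega) ∅ two_pos) (mem 1 (by omega) ∅ one_pos)
  have v := diff_mem _ (mem 3 (by omega) ∅ three_pos) (mem 2 (by omega) ∅ two_pos)
  refine Fin.cases ?_ (fun i => Fin.cases ?_ (fun j => ?_) i) i
  · have w := Submodule.sub_mem _ (Submodule.smul_mem _ (5 / 2 : ℝ) u)
      (Submodule.smul_mem _ (3 / 2 : ℝ) v)
    refine mem_of_eq w (funext fun l => ?_)
    refine Fin.cases ?_ (fun l => Fin.cases ?_ (fun l => ?_) l) l <;>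
      simp [emb, pt, Pi.single_apply, Fin.ext_iff] <;> norm_num
  · have w := Submodule.sub_mem _ (Submodule.smul_mem _ (1 / 2 : ℝ) v)
      (Submodule.smul_mem _ (1 / 2 : ℝ) u)
    refine mem_of_eq w (funext fun l => ?_)
    refine Fin.cases ?_ (fun l => Fin.cases ?_ (fun l => ?_) l) l <;>
      simp [emb, pt, Pi.single_apply, Fin.ext_iff] <;> norm_num
  · have w := diff_mem _ (mem 1 (by omega) {j} one_pos) (mem 1 (by omega) ∅ one_pos)
    refine mem_of_eq w (funext fun l => ?_)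
    refine Fin.cases ?_ (fun l => Fin.cases ?_ (fun l => ?_) l) l
    · simp [emb, pt, Pi.single_apply, Fin.ext_iff]
    · simp [emb, pt, Pi.single_apply, Fin.ext_iff]
    · have hk0 : 0 < k := by omega
      by_cases h : l = j <;> simp [emb, pt, Pi.single_apply, h, hone, hk0]

/-- For every fixed `d ≥ 2` the conductance of `Λ(d,k)` tends to `0` as `k → ∞`. -/
theorem result (d : ℕ) (hd : 2 ≤ d) (ε : ℝ) (hε : 0 < ε) :
    ∀ᶠ k : ℕ in atTop, ∃ S : Set (Poly d k), S.Nonempty ∧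
      2 * vol (Lam d k) S ≤ vol (Lam d k) Set.univ ∧
      (cut (Lam d k) S : ℝ) < ε * vol (Lam d k) S := by
  obtain ⟨n, rfl⟩ : ∃ n, d = n + 2 := ⟨d - 2, by omega⟩
  obtain ⟨M, hM⟩ := exists_nat_gt (2 / ε)
  rw [div_lt_iff₀ hε] at hM
  obtain ⟨s0, hs0⟩ := eventually_atTop.1
    (ev_pow (2 * (n + 2 + 1 + M) * 2 ^ (n + 2 + 2)) (2 * (n + 2) * (n + 2 + 1 + M)))
  filter_upwards [eventually_ge_atTop ((s0 + (n + 2 + 2)) ^ 2), eventually_ge_atTop 9] with k h1 h2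
  refine main ε M (by linarith) 0 (par n k) (par_conv n k) (by simp [par]) (par_sp n k h2) ?_
  have h3 := par_card n k
  have h4 := Nat.le_sqrt'.2 h1
  have h5 := hs0 (k.sqrt + 1) (by omega)
  have h6 : k + 1 ≤ (k.sqrt + 1) ^ 2 := Nat.lt_succ_sqrt' k
  have h7 : 2 ^ (k.sqrt + 1) ≤ 2 ^ ((par n k).card - (n + 2 + 2)) * 2 ^ (n + 2 + 2) := by
    rw [← pow_add]
    exact Nat.pow_le_pow_right (by norm_num) (by omega)
  refine Nat.le_of_mul_le_mul_right ?_ (by positivity : 0 < 2 ^ (n + 2 + 2))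
  refine le_trans ?_ (h5.trans h7)
  calc 2 * ((n + 2 + 1 + M) * ((k + 1) ^ (n + 2)) ^ (n + 2 + 1 + M)) * 2 ^ (n + 2 + 2)
      ≤ 2 * ((n + 2 + 1 + M) * (((k.sqrt + 1) ^ 2) ^ (n + 2)) ^ (n + 2 + 1 + M)) *
        2 ^ (n + 2 + 2) := by gcongr
    _ = _ := by rw [← pow_mul, ← pow_mul, ← mul_assoc (2 : ℕ) (n + 2)]; ring

end Pool.Agent.Results.MP_f22ace_co.Q1Phi
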