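import Pool.Agent.H.MP_f22ace_co.A

set_option autoImplicit false

namespace Pool.Agent.Results.MP_f22ace_co.Q2Phi

open Finset Filter Pool.Agent.H.MP_f22ace_co

def cube (d k : ℕ) : Finset (Pt d k) := univ.filter fun x => ∀ i, (x i : ℕ) ≤ 1

theorem cube_conv (d k : ℕ) : IsConv (cube d k) := by
  refine conv_of _ fun x hx => ⟨fun i => 2 * emb x i - 1, fun y hy hne => ?_⟩
  have hx1 := (mem_filter.1 hx).2
  have hy1 := (mem_filter.1 hy).2
  obtain ⟨j, hj⟩ := Function.ne_iff.1 hne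
  have key : ∀ i, ((x i : ℕ) = 0 ∨ (x i : ℕ) = 1) ∧ ((y i : ℕ) = 0 ∨ (y i : ℕ) = 1) := fun i => by
    have := hx1 i; have := hy1 i; omega
  refine sum_lt_sum (fun i _ => ?_) ⟨j, mem_univ _, ?_⟩
  · obtain ⟨h1 | h1, h2 | h2⟩ := key i <;> simp [emb, h1, h2] <;> norm_num
  · have hj' : (y j : ℕ) ≠ x j := fun h => hj (Fin.ext h)
    obtain ⟨h1 | h1, h2 | h2⟩ := key j <;> simp_all [emb] <;> norm_num

theorem cube_card (d k : ℕ) (hk : 1 ≤ k) : 2 ^ d ≤ (cube d k).card := by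
  have h := card_le_card_of_injOn (s := (univ : Finset (Fin d → Fin 2))) (t := cube d k)
    (fun x i => ⟨x i, by have := (x i).2; omega⟩)
    (fun x _ => mem_coe.2 (mem_filter.2 ⟨mem_univ _, fun i => by have := (x i).2; simp; omega⟩))
    (fun x _ y _ h => funext fun i => Fin.ext (by simpa using congrFun h i))
  simpa using h

theorem cube_sp (d k : ℕ) (hd : 2 ≤ d) (hk : 1 ≤ k) : Sp ((cube d k).erase 0) = ⊤ := by
  have mem : ∀ (s : Finset (Fin d)), s.Nonempty →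
      (fun i => if i ∈ s then (⟨1, by omega⟩ : Fin (k + 1)) else 0) ∈ (cube d k).erase 0 := by
    rintro s ⟨j, hj⟩
    refine mem_erase.2 ⟨fun h => ?_, mem_filter.2 ⟨mem_univ _, fun i => ?_⟩⟩
    · have := congrArg Fin.val (congrFun h j)
      simp [hj] at this
    · by_cases h : i ∈ s <;> simp [h]
  refine sp_top _ ⟨_, mem {⟨0, by omega⟩} (singleton_nonempty _)⟩ fun i => ?_
  haveI : Nontrivial (Fin d) := Fin.nontrivial_iff_two_le.2 hd
  obtain ⟨j, hj⟩ := exists_ne i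
  have h := diff_mem _ (mem {i, j} (insert_nonempty _ _)) (mem {j} (singleton_nonempty _))
  have e : Pi.single i (1 : ℝ) =
      emb (fun l => if l ∈ ({i, j} : Finset (Fin d)) then (⟨1, by omega⟩ : Fin (k + 1)) else 0) -
      emb (fun l => if l ∈ ({j} : Finset (Fin d)) then (⟨1, by omega⟩ : Fin (k + 1)) else 0) := by
    funext l
    by_cases h1 : l = i
    · subst h1; simp [emb, hj.symm]
    · by_cases h2 : l = j <;> simp [emb, h1, h2, hj]
  rw [e]; exact h

/-- For every fixed `k ≥ 1` the conductance of `Λ(d,k)` tends to `0` as `d → ∞`. -/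
theorem result (k : ℕ) (hk : 1 ≤ k) (ε : ℝ) (hε : 0 < ε) :
    ∀ᶠ d : ℕ in atTop, ∃ S : Set (Poly d k), S.Nonempty ∧
      2 * vol (Lam d k) S ≤ vol (Lam d k) Set.univ ∧
      (cut (Lam d k) S : ℝ) < ε * vol (Lam d k) S := by
  obtain ⟨M, hM⟩ := exists_nat_gt (2 / ε)
  rw [div_lt_iff₀ hε] at hM
  filter_upwards [ev_pow (2 * k + 5) 2, eventually_ge_atTop (M + 2)] with d h1 h2
  refine main ε M (by linarith) 0 (cube d k) (cube_conv d k) (by simp [cube])
    (cube_sp d k (by omega) hk) ?_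
  have h3 := cube_card d k hk
  have h4 : d + 1 + M ≤ 2 ^ (d + 1 + M) := Nat.lt_two_pow_self.le
  have h5 : k + 1 ≤ 2 ^ k := Nat.lt_two_pow_self
  calc 2 * ((d + 1 + M) * ((k + 1) ^ d) ^ (d + 1 + M))
      ≤ 2 * (2 ^ (d + 1 + M) * ((2 ^ k) ^ d) ^ (d + 1 + M)) := by gcongr
    _ = 2 ^ (1 + (d + 1 + M) + k * d * (d + 1 + M)) := by
      rw [← pow_mul, ← pow_mul]; ring
    _ ≤ _ := by
      refine Nat.pow_le_pow_right (by norm_num) (Nat.le_sub_of_add_le (le_trans ?_ (h1.trans h3)))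
      have h6 : k * d * (d + 1 + M) ≤ k * d * (2 * d) := Nat.mul_le_mul_left _ (by omega)
      nlinarith

end Pool.Agent.Results.MP_f22ace_co.Q2Phi
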