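import Pool.Agent.H.MP_f22ace_co.A
import Pool.Agent.H.MP_f22ace_co.Harper

set_option autoImplicit false

namespace Pool.Agent.Results.MP_f22ace_co.Q2hOne

open Finset Filter Pool.Agent.H.MP_f22ace_co

variable {d : ℕ}

theorem all_conv (V : Finset (Pt d 1)) : IsConv V := by
  refine conv_of _ fun x _ => ⟨fun i => 2 * emb x i - 1, fun y _ hne => ?_⟩
  obtain ⟨j, hj⟩ := Function.ne_iff.1 hne
  have key : ∀ i, ((x i : ℕ) = 0 ∨ (x i : ℕ) = 1) ∧ ((y i : ℕ) = 0 ∨ (y i : ℕ) = 1) := fun i => by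
    have := (x i).2; have := (y i).2; omega
  refine sum_lt_sum (fun i _ => ?_) ⟨j, mem_univ _, ?_⟩
  · obtain ⟨h1 | h1, h2 | h2⟩ := key i <;> simp [emb, h1, h2] <;> norm_num
  · have hj' : (y j : ℕ) ≠ x j := fun h => hj (Fin.ext h)
    obtain ⟨h1 | h1, h2 | h2⟩ := key j
    · omega
    · simp [emb, h1, h2]
    · simp [emb, h1, h2]
    · omega

open Classical in
theorem half (W : AffineSubspace ℝ (Fin d → ℝ)) (hW : W ≠ ⊤) :
    2 * (univ.filter fun x : Pt d 1 => emb x ∈ W).card ≤ 2 ^ d := by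
  rcases (univ.filter fun x : Pt d 1 => emb x ∈ W).eq_empty_or_nonempty with h | ⟨x0, hx0⟩
  · simp [h]
  obtain ⟨i, hi⟩ : ∃ i, Pi.single i (1 : ℝ) ∉ W.direction := by
    by_contra hc
    push Not at hc
    refine hW ((AffineSubspace.direction_eq_top_iff_of_nonempty ⟨_, (mem_filter.1 hx0).2⟩).1 ?_)
    rw [eq_top_iff]
    intro v _
    rw [← Finset.univ_sum_single v]
    refine Submodule.sum_mem _ fun i _ => ?_
    have : Pi.single i (v i) = v i • (Pi.single i (1 : ℝ) : Fin d → ℝ) := by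
      rw [← Pi.single_smul, smul_eq_mul, mul_one]
    rw [this]
    exact Submodule.smul_mem _ _ (hc i)
  have h1 := card_filter_add_card_filter_not (s := univ) fun x : Pt d 1 => emb x ∈ W
  have h2 : (univ.filter fun x : Pt d 1 => emb x ∈ W).card ≤
      (univ.filter fun x : Pt d 1 => ¬ emb x ∈ W).card := by
    refine card_le_card_of_injOn (fun x => Function.update x i (x i).rev) (fun x hx => ?_) ?_
    · refine mem_coe.2 (mem_filter.2 ⟨mem_univ _, fun h => hi ?_⟩)
      have h3 := AffineSubspace.vsub_mem_direction h (mem_filter.1 (mem_coe.1 hx)).2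
      have h4 : (x i : ℕ) = 0 ∨ (x i : ℕ) = 1 := by have := (x i).2; omega
      have e : emb (Function.update x i (x i).rev) -ᵥ emb x =
          (1 - 2 * ((x i : ℕ) : ℝ)) • (Pi.single i (1 : ℝ) : Fin d → ℝ) := by
        funext l
        by_cases hl : l = i
        · subst hl
          rcases h4 with h4 | h4 <;> simp [emb, Fin.val_rev, h4] <;> norm_num
        · simp [emb, hl]
      rw [e] at h3
      refine (Submodule.smul_mem_iff _ ?_).1 h3
      rcases h4 with h4 | h4 <;> rw [h4] <;> norm_num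
    · intro x _ y _ h
      funext l
      have := congrFun h l
      by_cases hl : l = i
      · subst hl; simpa using this
      · simpa [hl] using this
  have h3 : (univ : Finset (Pt d 1)).card = 2 ^ d := by simp
  omega

open Classical in
theorem bad_card : (univ.filter fun A : Finset (Pt d 1) => Sp A ≠ ⊤).card ≤
    ((d + 2) * (2 ^ d) ^ (d + 2)) * 2 ^ (2 ^ d / 2) := by
  have h0 := card_small (ι := Pt d 1) Fintype.card_pos (d + 2)
  have hc : Fintype.card (Pt d 1) = 2 ^ d := by simp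
  rw [hc] at h0
  have h1 : (univ.filter fun A : Finset (Pt d 1) => Sp A ≠ ⊤) ⊆
      ((univ.filter fun B : Finset (Pt d 1) => B.card < d + 2).filter fun B => Sp B ≠ ⊤).biUnion
        fun B => (univ.filter fun x : Pt d 1 => emb x ∈ Sp B).powerset := by
    intro A hA
    obtain ⟨B, -, hB, hs⟩ := exists_basis A
    refine mem_biUnion.2 ⟨B, mem_filter.2 ⟨mem_filter.2 ⟨mem_univ _, by omega⟩, ?_⟩,
      mem_powerset.2 fun x hx => mem_filter.2 ⟨mem_univ _, ?_⟩⟩
    · rw [hs]; exact (mem_filter.1 hA).2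
    · rw [hs]; exact subset_affineSpan ℝ _ ⟨x, hx, rfl⟩
  refine (card_le_card h1).trans (card_biUnion_le.trans ?_)
  refine (sum_le_card_nsmul _ _ (2 ^ (2 ^ d / 2)) fun B hB => ?_).trans ?_
  · rw [card_powerset]
    have := half _ (mem_filter.1 hB).2
    exact Nat.pow_le_pow_right (by norm_num) (by omega)
  · rw [smul_eq_mul]
    exact Nat.mul_le_mul_right _ ((card_filter_le _ _).trans h0)

theorem flp_inj {ι : Type} [DecidableEq ι] (A : Finset ι) {i j : ι} (h : flp A i = flp A j) :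
    i = j := by
  by_contra hne
  have h1 := mem_flp A i i
  rw [h, mem_flp] at h1
  simp [hne] at h1

theorem flp_flp {ι : Type} [DecidableEq ι] (A : Finset ι) (i : ι) : flp (flp A i) i = A := by
  ext y
  simp only [mem_flp]
  split_ifs with h <;> simp [h]

open Classical in
theorem cut_ge (S : Set (Poly d 1)) (F : Finset (Finset (Pt d 1)))
    (hF : ∀ A, A ∈ F ↔ A ∈ Subtype.val '' S) :
    bd univ F ≤ cut (Lam d 1) S + ∑ i, (F.filter fun A => Sp (flp A i) ≠ ⊤).card := by
  have h1 : ∀ i ∈ (univ : Finset (Pt d 1)), (F.filter fun A => flp A i ∉ F).card ≤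
      (F.filter fun A => flp A i ∉ F ∧ Sp (flp A i) = ⊤).card +
        (F.filter fun A => Sp (flp A i) ≠ ⊤).card := by
    intro i _
    refine le_trans (card_le_card fun A hA => ?_) (card_union_le _ _)
    simp only [mem_filter, mem_union] at hA ⊢
    tauto
  refine (sum_le_sum h1).trans ?_
  rw [sum_add_distrib]
  refine Nat.add_le_add_right ?_ _
  rw [← card_sigma, ← Set.ncard_coe_finset, cut, ← Set.ncard_image_of_injective _
    (Subtype.val_injective.prodMap Subtype.val_injective)]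
  refine Set.ncard_le_ncard_of_injOn (fun p => (p.2, flp p.2 p.1)) ?_ ?_ (Set.toFinite _)
  · rintro ⟨i, A⟩ hp
    obtain ⟨h2, h3, h4⟩ := mem_filter.1 (mem_sigma.1 (mem_coe.1 hp)).2
    obtain ⟨P, hP, rfl⟩ := (hF _).1 h2
    refine ⟨(P, ⟨flp P.1 i, all_conv _, h4⟩), ⟨hP, fun h => h3 ((hF _).2 ⟨_, h, rfl⟩), ?_⟩, rfl⟩
    rw [adj_iff]
    by_cases hi : i ∈ P.1
    · exact Or.inr ⟨i, by simp [flp, hi], by simp [flp, hi]⟩
    · exact Or.inl ⟨i, hi, by simp [flp, hi]⟩
  · rintro ⟨i, A⟩ _ ⟨j, B⟩ _ h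
    simp only [Prod.mk.injEq] at h
    obtain ⟨rfl, h⟩ := h
    rw [flp_inj A h]

open Classical in
theorem bad1 (F : Finset (Finset (Pt d 1))) (hF : ∀ A ∈ F, Sp A = ⊤) :
    ∑ i, (F.filter fun A => Sp (flp A i) ≠ ⊤).card ≤ F.card * (d + 1) := by
  simp only [card_filter]
  rw [sum_comm, ← smul_eq_mul]
  refine sum_le_card_nsmul _ _ _ fun A hA => ?_
  obtain ⟨B, hB, hc, hs⟩ := exists_basis A
  rw [← card_filter]
  refine le_trans (card_le_card fun i hi => ?_) hc
  by_contra hiB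
  refine (mem_filter.1 hi).2 (top_le_iff.1 ?_)
  rw [← hF A hA, ← hs]
  refine Sp_mono fun y hy => (mem_flp _ _ _).2 ?_
  rw [if_neg (fun h : y = i => hiB (h ▸ hy))]
  exact hB hy

open Classical in
theorem bad2 (F : Finset (Finset (Pt d 1))) :
    ∑ i, (F.filter fun A => Sp (flp A i) ≠ ⊤).card ≤
      2 ^ d * (((d + 2) * (2 ^ d) ^ (d + 2)) * 2 ^ (2 ^ d / 2)) := by
  have h3 : (univ : Finset (Pt d 1)).card = 2 ^ d := by simp
  rw [← smul_eq_mul (2 ^ d), ← h3]
  refine sum_le_card_nsmul _ _ _ fun i _ => ?_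
  rw [h3]
  refine le_trans (card_le_card_of_injOn (fun A => flp A i) (fun A hA => ?_) ?_) bad_card
  · exact mem_coe.2 (mem_filter.2 ⟨mem_univ _, (mem_filter.1 (mem_coe.1 hA)).2⟩)
  · intro A _ B _ h
    rw [← flp_flp A i, ← flp_flp B i]
    exact congrArg (flp · i) h

theorem exists_edge (T : Set (Poly d 1)) (hT : T.Nonempty) (hU : ∀ P ∈ T, P.1 ≠ univ) :
    ∃ P ∈ T, ∃ Q, Q ∉ T ∧ (Lam d 1).Adj P Q := by
  obtain ⟨P, hP, hm⟩ := Set.exists_max_image T (fun P => P.1.card) (Set.toFinite _) hT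
  obtain ⟨x, hx⟩ : ∃ x, x ∉ P.1 := by
    by_contra hc
    push Not at hc
    exact hU P hP (eq_univ_of_forall hc)
  have hv : IsVert (insert x P.1) :=
    ⟨all_conv _, top_le_iff.1 (le_trans P.2.2.ge (Sp_mono (subset_insert _ _)))⟩
  refine ⟨P, hP, ⟨_, hv⟩, fun h => ?_, (adj_iff _ _).2 (Or.inl ⟨x, hx, rfl⟩)⟩
  have := hm _ h
  simp only [card_insert_of_notMem hx] at this
  omega

theorem cut_pos (S : Set (Poly d 1)) (h1 : S.Nonempty) (h2 : Sᶜ.Nonempty) :
    1 ≤ cut (Lam d 1) S := by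
  refine (Set.ncard_pos (Set.toFinite _)).2 ?_
  by_cases h : ∀ P ∈ S, P.1 ≠ univ
  · obtain ⟨P, hP, Q, hQ, ha⟩ := exists_edge S h1 h
    exact ⟨(P, Q), hP, hQ, ha⟩
  · push Not at h
    obtain ⟨U, hU, hU2⟩ := h
    obtain ⟨P, hP, Q, hQ, ha⟩ := exists_edge Sᶜ h2 fun P hP h =>
      hP (by rwa [show P = U from Subtype.ext (h.trans hU2.symm)])
    exact ⟨(Q, P), not_not.1 hQ, hP, ha.symm⟩

/-- The graphs `Λ(d,1)`, `d ≥ 2`, have edge expansion bounded below by a positive constant. -/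
theorem result : ∃ c : ℝ, 0 < c ∧ ∀ d : ℕ, 2 ≤ d → ∀ S : Set (Poly d 1), S.Nonempty →
    2 * S.ncard ≤ Nat.card (Poly d 1) → c * S.ncard ≤ cut (Lam d 1) S := by
  classical
  obtain ⟨d0, hd0⟩ := eventually_atTop.1 (ev_pow 20 2)
  refine ⟨1 / (2 * 2 ^ 2 ^ d0), by positivity, fun d hd S hS hc => ?_⟩
  have hV : Nat.card (Poly d 1) ≤ 2 ^ 2 ^ d := by
    refine (Nat.card_le_card_of_injective _ Subtype.val_injective).trans ?_
    simp
  have hpos : 0 < S.ncard := (Set.ncard_pos (Set.toFinite _)).2 hS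
  have hA : (1 : ℝ) ≤ 2 ^ 2 ^ d0 := one_le_pow₀ (by norm_num)
  rw [div_mul_eq_mul_div, one_mul, div_le_iff₀ (by positivity)]
  rcases le_total d d0 with h | h
  · have h1 := cut_pos S hS (Set.nonempty_compl.2 fun h => by
      rw [h, Set.ncard_univ] at hc hpos; omega)
    have h2 : 2 ^ 2 ^ d ≤ 2 ^ 2 ^ d0 :=
      Nat.pow_le_pow_right (by norm_num) (Nat.pow_le_pow_right (by norm_num) h)
    have : S.ncard ≤ cut (Lam d 1) S * (2 * 2 ^ 2 ^ d0) := by nlinarith
    exact_mod_cast this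
  · set F := (Set.toFinite (Subtype.val '' S)).toFinset with hF
    have hFc : F.card = S.ncard := by
      rw [hF, ← Set.ncard_eq_toFinset_card, Set.ncard_image_of_injective _ Subtype.val_injective]
    have h1 := cut_ge S F fun A => by simp [hF]
    have h3 : (univ : Finset (Pt d 1)).card = 2 ^ d := by simp
    have key : S.ncard ≤ 2 * cut (Lam d 1) S := by
      rcases le_total (F.card * 2 ^ (d + 2)) (2 ^ 2 ^ d) with h4 | h4
      · have h5 := harper' univ F (fun _ _ => subset_univ _) (d + 2) (by rwa [h3])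
        have h6 := bad1 F fun A hA => by
          obtain ⟨P, -, rfl⟩ := (Set.Finite.mem_toFinset _).1 hA
          exact P.2.2
        nlinarith
      · have h5 := harper' univ F (fun _ _ => subset_univ _) 1 (by rw [h3]; omega)
        have h6 := bad2 F
        have h7 := hd0 d h
        have h8 : d + 2 ≤ 2 ^ (d + 2) := Nat.lt_two_pow_self.le
        have h9 : 2 * (2 ^ d * (((d + 2) * (2 ^ d) ^ (d + 2)) * 2 ^ (2 ^ d / 2))) * 2 ^ (d + 2) ≤
            2 ^ 2 ^ d := by
          calc _ ≤ 2 * (2 ^ d * ((2 ^ (d + 2) * (2 ^ d) ^ (d + 2)) * 2 ^ (2 ^ d / 2))) *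
                2 ^ (d + 2) := by gcongr
            _ = 2 ^ (1 + d + (d + 2) + d * (d + 2) + (d + 2) + 2 ^ d / 2) := by
              rw [← pow_mul]; ring
            _ ≤ _ := by
              refine Nat.pow_le_pow_right (by norm_num) ?_
              have : 1 + d + (d + 2) + d * (d + 2) + (d + 2) ≤ 10 * d ^ 2 := by nlinarith
              omega
        have h10 := Nat.le_of_mul_le_mul_right (h9.trans h4) (by positivity)
        omega
    have : (S.ncard : ℝ) ≤ 2 * cut (Lam d 1) S := by exact_mod_cast key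
    have h0 : (0 : ℝ) ≤ cut (Lam d 1) S := by positivity
    nlinarith

end Pool.Agent.Results.MP_f22ace_co.Q2hOne
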